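import Pool.Agent.TH742.FS.Basic

/-! MP_14840f_nt (Erdős-Graham): for which `(a,p)` is the exponent of the prime `p` in sums of
distinct factorials with least index `a` bounded? With `f(a,p)` the greatest attainable exponent:
finiteness is a `p`-adically open and dense condition on `a`, for every prime `p`; explicit residue
classes are given with the exact value. -/

namespace Pool.Agent.Results.MP_14840f_nt.FiniteClasses

open TH742.FS Nat

/-- (1) If `n ≥ 2`, `3 n! ≤ p^M` and `p^M ∣ a+n+1`, then `f(a,p) = ν_p(a!) + G(n,p)`, and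
`G(n,p) < M`. (2) If `f(a,p) = K` is finite and `a' ≡ a` modulo `p^(K - ν_p(a!) + 1)`, then
`f(a',p) - ν_p(a'!) = f(a,p) - ν_p(a!)`. (3) Every residue class modulo `p^m` contains a residue
class modulo some `p^M` on which `f(·,p)` is finite. -/
theorem result :
    (∀ p n M a : ℕ, p.Prime → 2 ≤ n → 3 * n ! ≤ p ^ M → p ^ M ∣ a + n + 1 →
      IsGreatest {k | Attainable a p k} (padicValNat p (a !) + G n p) ∧ G n p < M) ∧
    (∀ p a a' K : ℕ, p.Prime → IsGreatest {k | Attainable a p k} K →
      a' ≡ a [MOD p ^ (K - padicValNat p (a !) + 1)] →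
      IsGreatest {k | Attainable a' p k} (padicValNat p (a' !) + (K - padicValNat p (a !)))) ∧
    (∀ p b m : ℕ, p.Prime → ∃ c M, m ≤ M ∧ c ≡ b [MOD p ^ m] ∧
      ∀ a, a ≡ c [MOD p ^ M] → FFinite a p) := by
  refine ⟨fun p n M a hp hn hM h => criterion hp hn hM h, ?_, fun p b m hp => dense hp b m⟩
  intro p a a' K hp h ha
  have h1 := val_le_of_greatest hp h
  refine locally_constant hp (a := a) ?_ ha
  rwa [Nat.add_sub_cancel' h1]

end Pool.Agent.Results.MP_14840f_nt.FiniteClasses
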