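import Pool.Agent.TH742.FS.Comp
import Pool.Agent.TH742.FS.Eval
import Pool.Agent.TH742.FS.Eval3

/-! MP_14840f_nt (Erdős-Graham): lower bounds for the proportion of the `a` with `f(a,p) < ∞`,
`p = 2, 3, 5, 7`. -/

namespace Pool.Agent.Results.MP_14840f_nt.MostStartsFinite

open TH742.FS Nat

/-- For every `N`, at least `13514 N` of the integers `1, ..., 16384 N` satisfy `f(a,2) < ∞`; at least
`422 N` of `1, ..., 729 N` satisfy `f(a,3) < ∞`; at least `57 N` of `1, ..., 125 N` satisfy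
`f(a,5) < ∞`; at least `18 N` of `1, ..., 49 N` satisfy `f(a,7) < ∞`. -/
theorem result :
    (∀ N : ℕ, 13514 * N ≤ Set.ncard {a : ℕ | a ∈ Set.Icc 1 (16384 * N) ∧ FFinite a 2}) ∧
    (∀ N : ℕ, 422 * N ≤ Set.ncard {a : ℕ | a ∈ Set.Icc 1 (729 * N) ∧ FFinite a 3}) ∧
    (∀ N : ℕ, 57 * N ≤ Set.ncard {a : ℕ | a ∈ Set.Icc 1 (125 * N) ∧ FFinite a 5}) ∧
    (∀ N : ℕ, 18 * N ≤ Set.ncard {a : ℕ | a ∈ Set.Icc 1 (49 * N) ∧ FFinite a 7}) := by
  refine ⟨fun N => ?_, fun N => ?_, fun N => ?_, fun N => ?_⟩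
  · have := density (k := 14) (f := 30) Nat.prime_two N
    rw [cnt_16384, mul_comm] at this
    exact this
  · have := density (k := 6) (f := 30) Nat.prime_three N
    rw [cnt_729, mul_comm] at this
    exact this
  · have := density (k := 3) (f := 30) Nat.prime_five N
    rw [cnt_125, mul_comm] at this
    exact this
  · have := density (k := 2) (f := 30) (by norm_num : Nat.Prime 7) N
    rw [cnt_49, mul_comm] at this
    exact this

end Pool.Agent.Results.MP_14840f_nt.MostStartsFinite
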